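import Pool.Agent.H37.UM.Stmts

/-!
# Project UM (MP_a56223_co): module INA
-/

set_option autoImplicit false

namespace Pool.Agent.H37.UM

open Real in
private theorem ina_fact (k : ℕ) (hk : 1 ≤ k) :
    Real.log (k.factorial : ℝ) ≤ k * Real.log k - k + Real.log k / 2 + 1 := by
  obtain ⟨m, rfl⟩ : ∃ m, k = m + 1 := ⟨k - 1, by omega⟩
  have h1 := Stirling.log_stirlingSeq'_antitone (Nat.zero_le m)
  simp only [Function.comp_apply, Nat.succ_eq_add_one, zero_add] at h1
  have h2 := Stirling.log_stirlingSeq_formula (m + 1)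
  have h3 : Real.log (Stirling.stirlingSeq 1) = 1 - Real.log 2 / 2 := by
    rw [Stirling.stirlingSeq_one, Real.log_div (Real.exp_pos 1).ne' (by positivity), Real.log_exp,
      Real.log_sqrt (by norm_num)]
  rw [h3, h2] at h1
  have hp : (0 : ℝ) < ((m + 1 : ℕ) : ℝ) := by positivity
  rw [Real.log_mul (by norm_num) hp.ne', Real.log_div hp.ne' (Real.exp_pos 1).ne', Real.log_exp] at h1
  nlinarith [h1]

private theorem ina_log1m (x : ℝ) (h0 : 0 ≤ x) (h1 : x ≤ 1 / 2) : -x - x ^ 2 ≤ Real.log (1 - x) := by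
  rw [Real.le_log_iff_exp_le (by linarith)]
  have h2 := Real.quadratic_le_exp_of_nonneg (x := x + x ^ 2) (by positivity)
  have h3 : Real.exp (-x - x ^ 2) = (Real.exp (x + x ^ 2))⁻¹ := by
    rw [← Real.exp_neg]; congr 1; ring
  rw [h3, inv_le_comm₀ (Real.exp_pos _) (by linarith)]
  refine le_trans ?_ h2
  rw [inv_le_iff_one_le_mul₀ (by linarith)]
  nlinarith [pow_nonneg h0 2, pow_nonneg h0 3, mul_nonneg (pow_nonneg h0 2) (sub_nonneg.2 h1),
    mul_nonneg (pow_nonneg h0 3) (sub_nonneg.2 h1), mul_nonneg (pow_nonneg h0 4) (sub_nonneg.2 h1)]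

/-- the lower bound of the bracket on the cell `x ≤ xb` -/
private theorem ina_cell (x l xb lo hi bc : ℝ) (hx : 0 < x) (hxb : x ≤ xb) (hl : l = -Real.log x)
    (h1 : lo ≤ -Real.log xb) (h2 : -Real.log xb ≤ hi) (h3 : 1 ≤ lo)
    (hdb : xb + 0.36068 * (xb * hi) + 0.0095 ≤ 1 / 2)
    (hbc : bc ≤ lo / 2 + 1 / 2 - xb / 2 - (xb + 0.36068 * (xb * hi) + 0.0095) -
      (xb + 0.36068 * (xb * hi) + 0.0095) ^ 2) :
    x + 0.36068 * (x * l) + 0.0095 ≤ 1 / 2 ∧ 0 ≤ x + 0.36068 * (x * l) + 0.0095 ∧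
    bc ≤ l / 2 + 1 / 2 - x / 2 - (x + 0.36068 * (x * l) + 0.0095) -
      (x + 0.36068 * (x * l) + 0.0095) ^ 2 := by
  have hxb0 : 0 < xb := lt_of_lt_of_le hx hxb
  have hll : lo ≤ l := by
    rw [hl]
    have := Real.log_le_log hx hxb
    linarith
  have hxl : x * l ≤ xb * hi := by
    have h4 : Real.log (xb / x) ≤ xb / x - 1 := Real.log_le_sub_one_of_pos (by positivity)
    rw [Real.log_div hxb0.ne' hx.ne'] at h4
    have h5 : x * (Real.log xb - Real.log x) ≤ xb - x := by
      have := mul_le_mul_of_nonneg_left h4 hx.le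
      have h6 : x * (xb / x - 1) = xb - x := by field_simp
      linarith
    have h7 : 0 ≤ (xb - x) * (-Real.log xb - 1) := mul_nonneg (by linarith) (by linarith)
    have h8 : xb * -Real.log xb ≤ xb * hi := mul_le_mul_of_nonneg_left h2 hxb0.le
    rw [hl]
    nlinarith
  have hl0 : 0 ≤ l := by linarith
  have h9 : 0 ≤ x * l := by positivity
  have h10 : x + 0.36068 * (x * l) + 0.0095 ≤ xb + 0.36068 * (xb * hi) + 0.0095 := by linarith
  have h11 : 0 ≤ x + 0.36068 * (x * l) + 0.0095 := by linarith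
  refine ⟨by linarith, h11, ?_⟩
  have h12 := pow_le_pow_left₀ h11 h10 2
  linarith

private theorem exp_up (n : ℕ) (f c : ℝ) (h0 : 0 ≤ f) (h1 : f ≤ 1)
    (h : 2.7182818286 ^ n * (1 + f + f ^ 2 / 2 + f ^ 3 / 6 + f ^ 4 / 24 + f ^ 5 / 120 +
      f ^ 6 / 720 + f ^ 7 / 5040 + f ^ 8 * 9 / (40320 * 8)) ≤ c) : Real.exp (n + f) ≤ c := by
  refine le_trans ?_ h
  rw [Real.exp_add, ← Real.exp_one_pow]
  have h2 := Real.exp_bound' h0 h1 (n := 8) (by norm_num)
  simp only [Finset.sum_range_succ, Finset.sum_range_zero, Nat.factorial] at h2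
  norm_num at h2
  refine mul_le_mul (pow_le_pow_left₀ (Real.exp_pos 1).le Real.exp_one_lt_d9.le n) ?_
    (Real.exp_pos _).le (by positivity)
  norm_num
  linarith

private theorem exp_dn (n : ℕ) (f c : ℝ) (h0 : 0 ≤ f)
    (h : c ≤ 2.7182818283 ^ n * (1 + f + f ^ 2 / 2 + f ^ 3 / 6 + f ^ 4 / 24 + f ^ 5 / 120 +
      f ^ 6 / 720 + f ^ 7 / 5040)) : c ≤ Real.exp (n + f) := by
  refine le_trans h ?_
  rw [Real.exp_add, ← Real.exp_one_pow]
  have h2 := Real.sum_le_exp_of_nonneg h0 8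
  simp only [Finset.sum_range_succ, Finset.sum_range_zero, Nat.factorial] at h2
  norm_num at h2
  refine mul_le_mul (pow_le_pow_left₀ (by norm_num) Real.exp_one_gt_d9.le n) ?_
    (by positivity) (by positivity)
  norm_num
  linarith

/-- lower bound of `-log x` -/
private theorem lg_lo (x : ℝ) (n : ℕ) (f lo : ℝ) (hx : 0 < x) (hlo : lo = n + f) (h0 : 0 ≤ f)
    (h1 : f ≤ 1)
    (h : 2.7182818286 ^ n * (1 + f + f ^ 2 / 2 + f ^ 3 / 6 + f ^ 4 / 24 + f ^ 5 / 120 +
      f ^ 6 / 720 + f ^ 7 / 5040 + f ^ 8 * 9 / (40320 * 8)) ≤ x⁻¹) : lo ≤ -Real.log x := by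
  rw [← Real.log_inv, Real.le_log_iff_exp_le (by positivity), hlo]
  exact exp_up n f _ h0 h1 h

/-- upper bound of `log y` -/
private theorem lg_up (y : ℝ) (n : ℕ) (f hi : ℝ) (hy : 0 < y) (hhi : hi = n + f) (h0 : 0 ≤ f)
    (h : y ≤ 2.7182818283 ^ n * (1 + f + f ^ 2 / 2 + f ^ 3 / 6 + f ^ 4 / 24 + f ^ 5 / 120 +
      f ^ 6 / 720 + f ^ 7 / 5040)) : Real.log y ≤ hi := by
  rw [Real.log_le_iff_le_exp hy, hhi]
  exact exp_dn n f _ h0 h

/-- upper bound of `-log x` -/
private theorem lg_up' (x : ℝ) (n : ℕ) (f hi : ℝ) (hx : 0 < x) (hhi : hi = n + f) (h0 : 0 ≤ f)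
    (h : x⁻¹ ≤ 2.7182818283 ^ n * (1 + f + f ^ 2 / 2 + f ^ 3 / 6 + f ^ 4 / 24 + f ^ 5 / 120 +
      f ^ 6 / 720 + f ^ 7 / 5040)) : -Real.log x ≤ hi := by
  rw [← Real.log_inv]
  exact lg_up _ n f hi (by positivity) hhi h0 h

/-- lower bound of `log y` -/
private theorem lg_lo' (y : ℝ) (n : ℕ) (f lo : ℝ) (hy : 0 < y) (hlo : lo = n + f) (h0 : 0 ≤ f)
    (h1 : f ≤ 1)
    (h : 2.7182818286 ^ n * (1 + f + f ^ 2 / 2 + f ^ 3 / 6 + f ^ 4 / 24 + f ^ 5 / 120 +
      f ^ 6 / 720 + f ^ 7 / 5040 + f ^ 8 * 9 / (40320 * 8)) ≤ y) : lo ≤ Real.log y := by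
  rw [Real.le_log_iff_exp_le hy, hlo]
  exact exp_up n f _ h0 h1 h

private theorem sqrt_tan (n v v1 : ℝ) (h1 : 0 < v1) (h : v ^ 2 = n) : v ≤ (n / v1 + v1) / 2 := by
  have h2 : n / v1 = v ^ 2 / v1 := by rw [h]
  have h3 : (n / v1 + v1) / 2 - v = (v - v1) ^ 2 / (2 * v1) := by
    rw [h2]; field_simp; ring
  have h4 : 0 ≤ (v - v1) ^ 2 / (2 * v1) := by positivity
  linarith

private theorem log_tan (n n1 L : ℝ) (hn : 0 < n) (h1 : 0 < n1) (hL : Real.log n1 ≤ L) :
    Real.log n ≤ L + n / n1 - 1 := by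
  have h2 := Real.log_le_sub_one_of_pos (x := n / n1) (by positivity)
  rw [Real.log_div hn.ne' h1.ne'] at h2
  linarith

/-- the final numerical statement -/
private theorem ina_fin (n v x l kk : ℝ) (hn : 1300 ≤ n) (hv : v ^ 2 = n) (hv0 : 0 < v)
    (hk : 71 ≤ kk) (hk2 : 9 * v ≤ 5 * kk) (hk4 : 4 * kk ≤ n) (hx : x = kk / n)
    (hl : l = -Real.log x) :
    x + 0.36068 * (x * l) + 0.0095 ≤ 1 / 2 ∧ 0 ≤ x + 0.36068 * (x * l) + 0.0095 ∧
    2.5651 * v + 3.6686 * Real.log n + 3.4195 ≤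
      kk * (l / 2 + 1 / 2 - x / 2 - (x + 0.36068 * (x * l) + 0.0095) -
      (x + 0.36068 * (x * l) + 0.0095) ^ 2) := by
  have hn0 : 0 < n := by linarith
  have hx0 : 0 < x := by rw [hx]; positivity
  have hxk : kk = x * n := by rw [hx]; field_simp
  have hx4 : x ≤ 0.25 := by rw [hx, div_le_iff₀ hn0]; linarith
  have hv36 : 36 < v := by nlinarith
  -- the three kinds of cells
  have key : ∀ bc : ℝ, 0 < bc → (x + 0.36068 * (x * l) + 0.0095 ≤ 1 / 2 ∧
      0 ≤ x + 0.36068 * (x * l) + 0.0095 ∧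
      bc ≤ l / 2 + 1 / 2 - x / 2 - (x + 0.36068 * (x * l) + 0.0095) -
      (x + 0.36068 * (x * l) + 0.0095) ^ 2) → 2.5651 * v + 3.6686 * Real.log n + 3.4195 ≤ kk * bc →
      x + 0.36068 * (x * l) + 0.0095 ≤ 1 / 2 ∧ 0 ≤ x + 0.36068 * (x * l) + 0.0095 ∧
    2.5651 * v + 3.6686 * Real.log n + 3.4195 ≤
      kk * (l / 2 + 1 / 2 - x / 2 - (x + 0.36068 * (x * l) + 0.0095) -
      (x + 0.36068 * (x * l) + 0.0095) ^ 2) := by
    intro bc _ h1 h2
    exact ⟨h1.1, h1.2.1, h2.trans (mul_le_mul_of_nonneg_left h1.2.2 (by linarith))⟩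
  have hD : ∀ xa bc : ℝ, xa ≤ x → 0 < bc → 0 < xa → 122.22 ≤ 1300 * (xa * bc) →
      2.5651 * v + 3.6686 * Real.log n + 3.4195 ≤ kk * bc := by
    intro xa bc ha hb ha0 hh
    have h1 := sqrt_tan n v 36.055 (by norm_num) hv
    have h2 := log_tan n 1300 7.1705 hn0 (by norm_num)
      (lg_up 1300 7 0.1705 7.1705 (by norm_num) (by norm_num) (by norm_num) (by norm_num))
    have h3 : xa * bc * n ≤ kk * bc := by
      rw [hxk]
      have := mul_le_mul_of_nonneg_right ha (mul_nonneg hb.le hn0.le)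
      nlinarith
    have h4 : 0 ≤ (n - 1300) * (1300 * (xa * bc) - 122.22) :=
      mul_nonneg (by linarith) (by linarith)
    norm_num at h1 h2 ⊢
    nlinarith
  rcases le_or_gt x 0.049 with c1 | c1
  · refine key 1.8585 (by norm_num) (ina_cell x l 0.049 3.0155 3.0163 _ hx0 c1 hl
      (lg_lo 0.049 3 0.0155 _ (by norm_num) (by norm_num) (by norm_num) (by norm_num) (by norm_num))
      (lg_up' 0.049 3 0.0163 _ (by norm_num) (by norm_num) (by norm_num) (by norm_num))
      (by norm_num) (by norm_num) (by norm_num)) ?_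
    have h1 := log_tan v (355 / 9) 3.68 hv0 (by norm_num)
      (lg_up (355 / 9) 3 0.68 3.68 (by norm_num) (by norm_num) (by norm_num) (by norm_num))
    have h2 : Real.log n = 2 * Real.log v := by
      rw [← hv, Real.log_pow]; norm_num
    rw [h2]
    rcases le_or_gt v (355 / 9) with c | c
    · norm_num at h1 ⊢
      nlinarith
    · norm_num at h1 ⊢
      nlinarith
  rcases le_or_gt x 0.0535 with c2 | c2
  · refine key 1.803 (by norm_num) (ina_cell x l 0.0535 2.9278 2.9284 _ hx0 c2 hl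
      (lg_lo 0.0535 2 0.9278 _ (by norm_num) (by norm_num) (by norm_num) (by norm_num)
        (by norm_num))
      (lg_up' 0.0535 2 0.9284 _ (by norm_num) (by norm_num) (by norm_num) (by norm_num))
      (by norm_num) (by norm_num) (by norm_num)) ?_
    have h1 := sqrt_tan n v 38.07 (by norm_num) hv
    have h2 := log_tan n 1449 7.28 hn0 (by norm_num)
      (lg_up 1449 7 0.28 7.28 (by norm_num) (by norm_num) (by norm_num) (by norm_num))
    have h3 : 0.049 * n ≤ kk := by rw [hxk]; nlinarith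
    norm_num at h1 h2 h3 ⊢
    rcases le_or_gt n 1449 with c | c
    · linarith
    · linarith
  rcases le_or_gt x 0.059 with c3 | c3
  · refine key 1.7398 (by norm_num) (ina_cell x l 0.059 2.83 2.8305 _ hx0 c3 hl
      (lg_lo 0.059 2 0.83 _ (by norm_num) (by norm_num) (by norm_num) (by norm_num)
        (by norm_num))
      (lg_up' 0.059 2 0.8305 _ (by norm_num) (by norm_num) (by norm_num) (by norm_num))
      (by norm_num) (by norm_num) (by norm_num)) ?_
    have h1 := sqrt_tan n v 36.43 (by norm_num) hv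
    have h2 := log_tan n 1327 7.192 hn0 (by norm_num)
      (lg_up 1327 7 0.192 7.192 (by norm_num) (by norm_num) (by norm_num) (by norm_num))
    have h3 : 0.0535 * n ≤ kk := by rw [hxk]; nlinarith
    norm_num at h1 h2 h3 ⊢
    rcases le_or_gt n 1327 with c | c
    · linarith
    · linarith
  rcases le_or_gt x 0.073 with c4 | c4
  · refine key 1.5973 (by norm_num) (ina_cell x l 0.073 2.617 2.6176 _ hx0 c4 hl
      (lg_lo 0.073 2 0.617 _ (by norm_num) (by norm_num) (by norm_num) (by norm_num)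
        (by norm_num))
      (lg_up' 0.073 2 0.6176 _ (by norm_num) (by norm_num) (by norm_num) (by norm_num))
      (by norm_num) (by norm_num) (by norm_num)) ?_
    exact hD 0.059 1.5973 c3.le (by norm_num) (by norm_num) (by norm_num)
  rcases le_or_gt x 0.11 with c5 | c5
  · refine key 1.298 (by norm_num) (ina_cell x l 0.11 2.207 2.2077 _ hx0 c5 hl
      (lg_lo 0.11 2 0.207 _ (by norm_num) (by norm_num) (by norm_num) (by norm_num)
        (by norm_num))
      (lg_up' 0.11 2 0.2077 _ (by norm_num) (by norm_num) (by norm_num) (by norm_num))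
      (by norm_num) (by norm_num) (by norm_num)) ?_
    exact hD 0.073 1.298 c4.le (by norm_num) (by norm_num) (by norm_num)
  rcases le_or_gt x 0.18 with c6 | c6
  · refine key 0.8755 (by norm_num) (ina_cell x l 0.18 1.7145 1.7151 _ hx0 c6 hl
      (lg_lo 0.18 1 0.7145 _ (by norm_num) (by norm_num) (by norm_num) (by norm_num)
        (by norm_num))
      (lg_up' 0.18 1 0.7151 _ (by norm_num) (by norm_num) (by norm_num) (by norm_num))
      (by norm_num) (by norm_num) (by norm_num)) ?_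
    exact hD 0.11 0.8755 c5.le (by norm_num) (by norm_num) (by norm_num)
  · refine key 0.535 (by norm_num) (ina_cell x l 0.25 1.386 1.3867 _ hx0 hx4 hl
      (lg_lo 0.25 1 0.386 _ (by norm_num) (by norm_num) (by norm_num) (by norm_num)
        (by norm_num))
      (lg_up' 0.25 1 0.3867 _ (by norm_num) (by norm_num) (by norm_num) (by norm_num))
      (by norm_num) (by norm_num) (by norm_num)) ?_
    exact hD 0.18 0.535 c6.le (by norm_num) (by norm_num) (by norm_num)

theorem INA_thm : INAStmt := by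
  intro N k M s r hN hk h81 h4 hM hr hs
  have hkN : (0 : ℝ) < (k : ℝ) := by exact_mod_cast (by omega : 0 < k)
  have hN0 : (0 : ℝ) < (N : ℝ) := by exact_mod_cast (by omega : 0 < N)
  have hn : (1300 : ℝ) ≤ (N : ℝ) := by exact_mod_cast hN
  have hkk : (71 : ℝ) ≤ (k : ℝ) := by exact_mod_cast hk
  have h4' : 4 * (k : ℝ) ≤ (N : ℝ) := by exact_mod_cast h4
  have h81' : 81 * (N : ℝ) ≤ 25 * (k : ℝ) ^ 2 := by exact_mod_cast h81.le
  have hM1 : (k : ℝ) / 2 ≤ (M : ℝ) := by
    have : k ≤ 2 * M := by omega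
    have : (k : ℝ) ≤ 2 * (M : ℝ) := by exact_mod_cast this
    linarith
  have hM2 : (M : ℝ) ≤ ((k : ℝ) + 1) / 2 := by
    have : 2 * M ≤ k + 1 := by omega
    have : 2 * (M : ℝ) ≤ (k : ℝ) + 1 := by exact_mod_cast this
    linarith
  have hM0 : (0 : ℝ) < (M : ℝ) := by linarith
  set n : ℝ := (N : ℝ) with hndef
  set kk : ℝ := (k : ℝ) with hkdef
  set v : ℝ := √n with hvdef
  have hv0 : 0 < v := Real.sqrt_pos.2 hN0
  have hv : v ^ 2 = n := Real.sq_sqrt hN0.le
  have hv2 : 9 * v ≤ 5 * kk := by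
    have : (9 * v) ^ 2 ≤ (5 * kk) ^ 2 := by rw [mul_pow, hv]; linarith
    exact (pow_le_pow_iff_left₀ (by positivity) (by positivity) (by norm_num)).1 this
  set x : ℝ := kk / n with hx
  set l : ℝ := -Real.log x with hl
  obtain ⟨f1, f2, f3⟩ := ina_fin n v x l kk hn hv hv0 hkk hv2 h4' hx hl
  set d : ℝ := x + 0.36068 * (x * l) + 0.0095 with hd
  have hx0 : 0 < x := by rw [hx]; positivity
  have hxn : x * n = kk := by rw [hx]; field_simp
  have hlogk : Real.log kk = Real.log n - l := by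
    rw [hl, hx, Real.log_div hkN.ne' hN0.ne']; ring
  have hl2a := Real.log_two_gt_d9
  have hl2b := Real.log_two_lt_d9
  have hl2 : 0 < Real.log 2 := by positivity
  have hlogn0 : 7 < Real.log n := by
    have := lg_lo' 1300 7 0.1 7.1 (by norm_num) (by norm_num) (by norm_num) (by norm_num)
      (by norm_num)
    have h2 := Real.log_le_log (by norm_num) hn
    linarith
  have hl0 : 1.3 ≤ l := by
    have h1 : x ≤ 0.25 := by rw [hx, div_le_iff₀ hN0]; linarith
    have h2 := Real.log_le_log hx0 h1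
    have h3 := lg_lo 0.25 1 0.386 1.386 (by norm_num) (by norm_num) (by norm_num) (by norm_num)
      (by norm_num)
    rw [hl]; linarith
  have hl1 : l ≤ Real.log n - 4.262 := by
    have h1 := Real.log_le_log (by norm_num) hkk
    have h2 := lg_lo' 71 4 0.262 4.262 (by norm_num) (by norm_num) (by norm_num) (by norm_num)
      (by norm_num)
    linarith
  -- the lower bound of `s - 1`
  have hs1 : n * (1 - d) ≤ s - 1 := by
    have h1 : Real.log (n / M) ≤ Real.log 2 + l := by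
      have h2 : n / M ≤ 2 * (n / kk) := by
        rw [div_le_iff₀ hM0]
        have : 2 * (n / kk) * (M : ℝ) = n * (M * 2 / kk) := by field_simp
        rw [this]
        have h3 : 1 ≤ (M : ℝ) * 2 / kk := by rw [le_div_iff₀ hkN]; linarith
        nlinarith
      have h3 := Real.log_le_log (by positivity) h2
      rw [Real.log_mul (by norm_num) (by positivity), Real.log_div hN0.ne' hkN.ne', hlogk] at h3
      linarith
    have h4 : Real.log (n / M) / Real.log 2 + 1 ≤ 2 + 1.442696 * l := by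
      have h5 : Real.log (n / M) / Real.log 2 ≤ 1 + 1.442696 * l := by
        rw [div_le_iff₀ hl2]
        nlinarith
      linarith
    have h5 : ((M : ℝ) + 1) / 2 * (Real.log (n / M) / Real.log 2 + 1) ≤
        (kk + 3) / 4 * (2 + 1.442696 * l) := by
      have h6 : 0 ≤ ((M : ℝ) + 1) / 2 := by positivity
      calc _ ≤ ((M : ℝ) + 1) / 2 * (2 + 1.442696 * l) := mul_le_mul_of_nonneg_left h4 h6
        _ ≤ _ := mul_le_mul_of_nonneg_right (by linarith) (by linarith)
    have h6 : Real.log n / Real.log 2 ≤ 1.442696 * Real.log n := by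
      rw [div_le_iff₀ hl2]
      nlinarith
    have h7 := log_tan n 1300 7.171 hN0 (by norm_num)
      (lg_up 1300 7 0.171 7.171 (by norm_num) (by norm_num) (by norm_num) (by norm_num))
    have h8 : n * (1 - d) = n - kk - 0.36068 * (kk * l) - 0.0095 * n := by
      rw [hd, ← hxn]; ring
    rw [h8]
    have h9 : 0 ≤ kk * l := by positivity
    norm_num at h4 h5 h6 h7 hl1 hl0 hl2a hl2b hs ⊢
    nlinarith
  have hd1 : 0 < 1 - d := by linarith
  have hlog : Real.log n - d - d ^ 2 ≤ Real.log (s - 1) := by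
    have h1 := Real.log_le_log (by positivity) hs1
    rw [Real.log_mul hN0.ne' hd1.ne'] at h1
    have h2 := ina_log1m d f2 f1
    linarith
  have g1 : n / 2 * Real.log (1 + kk / n) ≤ kk / 2 := by
    have h1 := Real.log_le_sub_one_of_pos (x := 1 + kk / n) (by positivity)
    have h2 : n / 2 * Real.log (1 + kk / n) ≤ n / 2 * (kk / n) :=
      mul_le_mul_of_nonneg_left (by linarith) (by positivity)
    have h3 : n / 2 * (kk / n) = kk / 2 := by field_simp
    linarith
  have g2 : kk / 2 * Real.log (1 + n / kk) ≤ kk / 2 * (l + x) := by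
    refine mul_le_mul_of_nonneg_left ?_ (by positivity)
    have h1 : 1 + n / kk = (n / kk) * (1 + kk / n) := by field_simp; ring
    have h2 := Real.log_le_sub_one_of_pos (x := 1 + kk / n) (by positivity)
    rw [h1, Real.log_mul (by positivity) (by positivity), Real.log_div hN0.ne' hkN.ne', hlogk]
    rw [← hx] at h2 ⊢
    linarith
  have g3 := ina_fact k (by omega)
  rw [← hkdef, hlogk] at g3
  have g4 : (Real.log n / Real.log 2 + 1) * (r / (1 - r)) ≤ 1.168585 * Real.log n + 0.81 := by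
    have h1 : r ^ 2 ≤ 1 / 5 := by
      rw [hr, Real.sq_sqrt (by positivity), div_le_div_iff₀ (by positivity) (by norm_num)]
      linarith
    have h0 : 0 ≤ r := by rw [hr]; positivity
    have h2 : r ≤ 0.4475 := by nlinarith
    have h3 : r / (1 - r) ≤ 0.81 := by
      rw [div_le_iff₀ (by linarith)]; linarith
    have h4 : 0 ≤ Real.log n / Real.log 2 + 1 := by positivity
    have h6 : Real.log n / Real.log 2 ≤ 1.4426952 * Real.log n := by
      rw [div_le_iff₀ hl2]
      nlinarith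
    calc _ ≤ (Real.log n / Real.log 2 + 1) * 0.81 := mul_le_mul_of_nonneg_left h3 h4
      _ ≤ _ := by linarith
  have g5 : Real.log (10 * n ^ 2) ≤ 2.30259 + 2 * Real.log n := by
    rw [Real.log_mul (by norm_num) (by positivity), Real.log_pow]
    have h1 := lg_up 10 2 0.30259 2.30259 (by norm_num) (by norm_num) (by norm_num) (by norm_num)
    push_cast
    linarith
  have g6 : 1.386 ≤ l := by
    have h1 : x ≤ 0.25 := by rw [hx, div_le_iff₀ hN0]; linarith
    have h2 := Real.log_le_log hx0 h1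
    have h3 := lg_lo 0.25 1 0.386 1.386 (by norm_num) (by norm_num) (by norm_num) (by norm_num)
      (by norm_num)
    rw [hl]; linarith
  have g7 := mul_le_mul_of_nonneg_left hlog hkN.le
  have g8 : kk * (l / 2 + 1 / 2 - x / 2 - d - d ^ 2) =
    kk * l / 2 + kk / 2 - kk * x / 2 - kk * d - kk * d ^ 2 := by ring
  rw [g8] at f3
  norm_num at g1 g2 g3 g4 g5 g6 g7 f3 ⊢
  nlinarith

end Pool.Agent.H37.UM
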