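import Pool.Agent.H37.UM.Stmts

/-!
# Project UM (MP_a56223_co): module IP1
-/

set_option autoImplicit false

namespace Pool.Agent.H37.UM.IP1

theorem exp_dn (n : ℕ) (f c : ℝ) (h0 : 0 ≤ f)
    (h : c ≤ 2.7182818283 ^ n * (1 + f + f ^ 2 / 2 + f ^ 3 / 6 + f ^ 4 / 24 + f ^ 5 / 120 +
      f ^ 6 / 720 + f ^ 7 / 5040)) : c ≤ Real.exp (n + f) := by
  refine le_trans h ?_
  rw [Real.exp_add, ← Real.exp_one_pow]
  have h2 := Real.sum_le_exp_of_nonneg h0 8
  simp only [Finset.sum_range_succ, Finset.sum_range_zero, Nat.factorial] at h2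
  norm_num at h2
  refine mul_le_mul (pow_le_pow_left₀ (by norm_num) Real.exp_one_gt_d9.le n) ?_
    (by positivity) (by positivity)
  norm_num
  linarith

/-- upper bound of `log y` -/
theorem lg_up (y : ℝ) (n : ℕ) (f hi : ℝ) (hy : 0 < y) (hhi : hi = n + f) (h0 : 0 ≤ f)
    (h : y ≤ 2.7182818283 ^ n * (1 + f + f ^ 2 / 2 + f ^ 3 / 6 + f ^ 4 / 24 + f ^ 5 / 120 +
      f ^ 6 / 720 + f ^ 7 / 5040)) : Real.log y ≤ hi := by
  rw [Real.log_le_iff_le_exp hy, hhi]
  exact exp_dn n f _ h0 h

theorem exp_up (n : ℕ) (f c : ℝ) (h0 : 0 ≤ f) (h1 : f ≤ 1)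
    (h : 2.7182818286 ^ n * (1 + f + f ^ 2 / 2 + f ^ 3 / 6 + f ^ 4 / 24 + f ^ 5 / 120 +
      f ^ 6 / 720 + f ^ 7 / 5040 + f ^ 8 * 9 / (40320 * 8)) ≤ c) : Real.exp (n + f) ≤ c := by
  refine le_trans ?_ h
  rw [Real.exp_add, ← Real.exp_one_pow]
  have h2 := Real.exp_bound' h0 h1 (n := 8) (by norm_num)
  simp only [Finset.sum_range_succ, Finset.sum_range_zero, Nat.factorial] at h2
  norm_num at h2
  refine mul_le_mul (pow_le_pow_left₀ (Real.exp_pos 1).le Real.exp_one_lt_d9.le n) ?_
    (Real.exp_pos _).le (by positivity)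
  norm_num
  linarith

/-- lower bound of `log y` -/
theorem lg_lo (y : ℝ) (n : ℕ) (f lo : ℝ) (hy : 0 < y) (hlo : lo = n + f) (h0 : 0 ≤ f)
    (h1 : f ≤ 1)
    (h : 2.7182818286 ^ n * (1 + f + f ^ 2 / 2 + f ^ 3 / 6 + f ^ 4 / 24 + f ^ 5 / 120 +
      f ^ 6 / 720 + f ^ 7 / 5040 + f ^ 8 * 9 / (40320 * 8)) ≤ y) : lo ≤ Real.log y := by
  rw [Real.le_log_iff_exp_le hy, hlo]
  exact exp_up n f _ h0 h1 h

theorem log_tan (n n1 L : ℝ) (hn : 0 < n) (h1 : 0 < n1) (hL : Real.log n1 ≤ L) :
    Real.log n ≤ L + n / n1 - 1 := by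
  have h2 := Real.log_le_sub_one_of_pos (x := n / n1) (by positivity)
  rw [Real.log_div hn.ne' h1.ne'] at h2
  linarith

/-- a concave function is nonnegative between two points where it is nonnegative -/
theorem conc (al a b z1 z z2 : ℝ) (hal : 0 ≤ al) (h0 : 0 < z1) (h1 : z1 ≤ z) (h2 : z ≤ z2)
    (e1 : 0 ≤ al * Real.log z1 - a * z1 - b) (e2 : 0 ≤ al * Real.log z2 - a * z2 - b) :
    0 ≤ al * Real.log z - a * z - b := by
  rcases eq_or_lt_of_le (h1.trans h2) with h | h
  · have : z = z1 := le_antisymm (by linarith) h1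
    rw [this]; exact e1
  set t : ℝ := (z - z1) / (z2 - z1) with ht
  have hd : 0 < z2 - z1 := by linarith
  have ht0 : 0 ≤ t := div_nonneg (by linarith) hd.le
  have ht1 : t ≤ 1 := by rw [ht, div_le_one hd]; linarith
  have hz : z = (1 - t) * z1 + t * z2 := by
    have : t * (z2 - z1) = z - z1 := by rw [ht]; field_simp
    linarith
  have hc := strictConcaveOn_log_Ioi.concaveOn.2 (Set.mem_Ioi.2 h0)
    (Set.mem_Ioi.2 (show (0 : ℝ) < z2 by linarith)) (show (0 : ℝ) ≤ 1 - t by linarith) ht0 (by ring)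
  simp only [smul_eq_mul] at hc
  rw [← hz] at hc
  have h3 := mul_le_mul_of_nonneg_left hc hal
  have h4 : 0 ≤ (1 - t) * (al * Real.log z1 - a * z1 - b) := mul_nonneg (by linarith) e1
  have h5 : 0 ≤ t * (al * Real.log z2 - a * z2 - b) := mul_nonneg ht0 e2
  have h6 : a * z = (1 - t) * (a * z1) + t * (a * z2) := by rw [hz]; ring
  nlinarith

/-- `2 log x ≤ x - 1 / x` -/
theorem two_log (x : ℝ) (hx : 1 ≤ x) : 2 * Real.log x ≤ x - x⁻¹ := by
  have h0 : 0 < x := by linarith
  have h1 : Real.log x ≤ Real.sinh (Real.log x) := Real.self_le_sinh_iff.2 (Real.log_nonneg hx)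
  rw [Real.sinh_log h0] at h1
  linarith

/-- the right end point -/
theorem e2 (n v L : ℝ) (hn : 250 ≤ n) (hv0 : 0 < v) (hv : v ^ 2 = n) (hL : L = Real.log n) :
    0 ≤ (n - 18) / 2 * Real.log (3.3334 * v) - 0.61686 * (L / Real.log 2 + 1) * (3.3334 * v) -
      (4.5651 * v + 3 * L + 3.39) := by
  have hv15 : 15.8 < v := by nlinarith
  have hl2a := Real.log_two_gt_d9
  have hl2 : 0 < Real.log 2 := by positivity
  have hl : 1 ≤ Real.log v := by
    have h1 := lg_lo 15.8 1 0.5 1.5 (by norm_num) (by norm_num) (by norm_num) (by norm_num)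
      (by norm_num)
    have h2 := Real.log_le_log (by norm_num) hv15.le
    linarith
  have hLv : L = 2 * Real.log v := by rw [hL, ← hv, Real.log_pow]; norm_num
  have h3 : L / Real.log 2 ≤ 1.442696 * L := by
    rw [div_le_iff₀ hl2]
    nlinarith
  have h4 : 1.2039 ≤ Real.log 3.3334 :=
    lg_lo 3.3334 1 0.2039 1.2039 (by norm_num) (by norm_num) (by norm_num) (by norm_num)
      (by norm_num)
  rw [Real.log_mul (by norm_num) hv0.ne']
  set l := Real.log v with hldef
  have h5 : 0.61686 * (L / Real.log 2 + 1) * (3.3334 * v) ≤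
      0.61686 * (1.442696 * (2 * l) + 1) * (3.3334 * v) := by
    refine mul_le_mul_of_nonneg_right ?_ (by positivity)
    rw [hLv] at h3 ⊢
    linarith
  have h6 : (n - 18) / 2 * (1.2039 + l) ≤ (n - 18) / 2 * (Real.log 3.3334 + l) :=
    mul_le_mul_of_nonneg_left (by linarith) (by linarith)
  have h7 : 0 ≤ l * ((v ^ 2 - 18) / 2 - 0.61686 * 1.442696 * 2 * 3.3334 * v - 6) := by
    refine mul_nonneg (by linarith) ?_
    nlinarith
  have h8 : 0 ≤ (v ^ 2 - 18) / 2 * 1.2039 - 0.61686 * 3.3334 * v - 4.5651 * v - 3.39 := by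
    nlinarith
  rw [hLv] at h5 ⊢
  rw [← hv] at h6 ⊢
  norm_num at h5 h6 h7 h8 ⊢
  nlinarith

/-- the left end point for `n < 1300` -/
theorem e1 (n v L : ℝ) (hn : 250 ≤ n) (hn2 : n ≤ 1300) (hv0 : 0 < v) (hv : v ^ 2 = n)
    (hL : L = Real.log n) :
    0 ≤ (n - 18) / 2 * Real.log ((n + 600) / (n + v)) -
      0.61686 * (L / Real.log 2 + 1) * ((n + 600) / (n + v)) -
      (4.5651 * v + 3 * L + 3.39) := by
  have hn0 : 0 < n := by linarith
  have hl2a := Real.log_two_gt_d9
  have hl2 : 0 < Real.log 2 := by positivity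
  have hL0 : 0 ≤ L := by rw [hL]; exact Real.log_nonneg (by linarith)
  have h3 : L / Real.log 2 ≤ 1.442696 * L := by
    rw [div_le_iff₀ hl2]
    nlinarith
  have h4 : L ≤ 6.3975 + n / 600 - 1 := by
    rw [hL]
    exact log_tan n 600 6.3975 hn0 (by norm_num)
      (lg_up 600 6 0.3975 6.3975 (by norm_num) (by norm_num) (by norm_num) (by norm_num))
  have h5 : 600 / (n + 300) - v / n ≤ Real.log ((n + 600) / (n + v)) := by
    have h6 := Real.le_log_one_add_of_nonneg (x := 600 / n) (by positivity)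
    have h7 := Real.log_le_sub_one_of_pos (x := 1 + v / n) (by positivity)
    have h8 : (n + 600) / (n + v) = (1 + 600 / n) / (1 + v / n) := by field_simp
    have h9 : 2 * (600 / n) / (600 / n + 2) = 600 / (n + 300) := by
      field_simp
      ring
    rw [h8, Real.log_div (by positivity) (by positivity)]
    rw [h9] at h6
    linarith
  have h6 : (n - 18) / 2 * (600 / (n + 300) - v / n) ≤
      (n - 18) / 2 * Real.log ((n + 600) / (n + v)) :=
    mul_le_mul_of_nonneg_left h5 (by linarith)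
  have h7 : 300 - 95400 / (n + 300) - v / 2 ≤ (n - 18) / 2 * (600 / (n + 300) - v / n) := by
    have h8 : (n - 18) / 2 * (600 / (n + 300) - v / n) =
        300 - 95400 / (n + 300) - v / 2 + 9 * v / n := by
      field_simp
      ring
    rw [h8]
    have : 0 ≤ 9 * v / n := by positivity
    linarith
  have h8 : 0.61686 * (L / Real.log 2 + 1) * ((n + 600) / (n + v)) ≤
      0.61686 * (1.442696 * (6.3975 + n / 600 - 1) + 1) * (1 + 600 / n) := by
    have h9 : (n + 600) / (n + v) ≤ 1 + 600 / n := by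
      rw [div_le_iff₀ (by positivity)]
      have : (1 + 600 / n) * (n + v) = n + 600 + v + 600 * v / n := by field_simp; ring
      rw [this]
      have : 0 ≤ 600 * v / n := by positivity
      linarith
    have h10 : 0 ≤ n / 600 := by positivity
    refine mul_le_mul ?_ h9 (by positivity) (by norm_num at h10 ⊢; linarith)
    linarith
  have h9 : 0.61686 * (1.442696 * (6.3975 + n / 600 - 1) + 1) * (1 + 600 / n) ≤
      6.3105 + 0.0014833 * n + 3252.3 / n := by
    have h10 : 0.61686 * (1.442696 * (6.3975 + n / 600 - 1) + 1) * (1 + 600 / n) =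
        0.61686 * (1.442696 * 5.3975 + 1) + 0.61686 * 1.442696 +
        0.61686 * 1.442696 / 600 * n + 0.61686 * (1.442696 * 5.3975 + 1) * 600 * (1 / n) := by
      field_simp
      ring
    have h11 : 3252.3 / n = 3252.3 * (1 / n) := by ring
    have h12 : 0 < n⁻¹ := by positivity
    rw [h10, h11]
    norm_num
    linarith
  have h10 : 0 ≤ 300 - 95400 * (1 / (n + 300)) - v / 2 - (6.3105 + 0.0014833 * n + 3252.3 * (1 / n)) -
      (4.5651 * v + 3 * (6.3975 + n / 600 - 1) + 3.39) := by
    rcases le_or_gt n 700 with c | c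
    · have g1 : 1 / n ≤ (950 - n) / 175000 := by
        rw [div_le_div_iff₀ hn0 (by norm_num)]
        nlinarith
      have g2 : 1 / (n + 300) ≤ (1250 - n) / 550000 := by
        rw [div_le_div_iff₀ (by positivity) (by norm_num)]
        nlinarith
      have g3 : v ≤ (n / 18 + 18) / 2 := by nlinarith [sq_nonneg (v - 18)]
      norm_num at g1 g2 g3 ⊢
      linarith
    · have g1 : 1 / n ≤ (2000 - n) / 910000 := by
        rw [div_le_div_iff₀ hn0 (by norm_num)]
        nlinarith
      have g2 : 1 / (n + 300) ≤ (2300 - n) / 1600000 := by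
        rw [div_le_div_iff₀ (by positivity) (by norm_num)]
        nlinarith
      have g3 : v ≤ (n / 30 + 30) / 2 := by nlinarith [sq_nonneg (v - 30)]
      norm_num at g1 g2 g3 ⊢
      linarith
  have h11 : 95400 / (n + 300) = 95400 * (1 / (n + 300)) := by ring
  have h12 : 3252.3 / n = 3252.3 * (1 / n) := by ring
  rw [h11] at h7
  rw [h12] at h9
  linarith

/-- the left end point for `1300 ≤ n` -/
theorem e1' (n v L : ℝ) (hn : 1300 ≤ n) (hv : v ^ 2 = n)
    (hL : L = Real.log n) :
    0 ≤ (n - 18) / 2 * Real.log 1.457 - 0.61686 * (L / Real.log 2 + 1) * 1.457 -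
      (4.5651 * v + 3 * L + 3.39) := by
  have hn0 : 0 < n := by linarith
  have hl2a := Real.log_two_gt_d9
  have hl2 : 0 < Real.log 2 := by positivity
  have hL0 : 0 ≤ L := by rw [hL]; exact Real.log_nonneg (by linarith)
  have h3 : L / Real.log 2 ≤ 1.442696 * L := by
    rw [div_le_iff₀ hl2]
    nlinarith
  have h4 : L ≤ 7.171 + n / 1300 - 1 := by
    rw [hL]
    exact log_tan n 1300 7.171 hn0 (by norm_num)
      (lg_up 1300 7 0.171 7.171 (by norm_num) (by norm_num) (by norm_num) (by norm_num))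
  have h5 : 0.376 ≤ Real.log 1.457 :=
    lg_lo 1.457 0 0.376 0.376 (by norm_num) (by norm_num) (by norm_num) (by norm_num)
      (by norm_num)
  have h6 : (n - 18) / 2 * 0.376 ≤ (n - 18) / 2 * Real.log 1.457 :=
    mul_le_mul_of_nonneg_left h5 (by linarith)
  have g3 : v ≤ (n / 36 + 36) / 2 := by nlinarith [sq_nonneg (v - 36)]
  norm_num at h3 h4 h6 g3 ⊢
  linarith

end Pool.Agent.H37.UM.IP1

namespace Pool.Agent.H37.UM

open IP1 in
theorem IP1_thm (hS : SSBStmt) : IP1Stmt := by
  intro N r hN hr0 hr1 hcase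
  have hn : (250 : ℝ) ≤ (N : ℝ) := by exact_mod_cast hN
  have hN0 : (0 : ℝ) < (N : ℝ) := by linarith
  have hSS := hS.1 N r (by omega)
  unfold B1 at hcase ⊢
  unfold A1
  rw [Real.sqrt_mul hN0.le] at hcase ⊢
  set n : ℝ := (N : ℝ) with hndef
  set v : ℝ := √n with hvdef
  have hv0 : 0 < v := Real.sqrt_pos.2 hN0
  have hv : v ^ 2 = n := Real.sq_sqrt hN0.le
  have hv15 : 15.8 < v := by nlinarith
  have hr1' : 0.6 / v ≤ 1 - r := by linarith
  have h1r : 0 < 1 - r := lt_of_lt_of_le (by positivity) hr1'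
  replace hSS := hSS hr0 (by linarith)
  set L : ℝ := Real.log n with hL
  set s : ℝ := Real.log (1 / r) with hs
  set z : ℝ := (1 + r) / (1 - r) with hz
  have hz1 : 1 < z := by rw [hz, lt_div_iff₀ h1r]; linarith
  have hz0 : 0 < z := by linarith
  have hzr : z * (1 - r) = 1 + r := by rw [hz]; field_simp
  set q : ℝ := √r with hq
  have hq0 : 0 < q := Real.sqrt_pos.2 hr0
  have hq2 : q ^ 2 = r := Real.sq_sqrt hr0.le
  have hq1 : q < 1 := by nlinarith
  -- `√r ≤ (1 + r) / 2`
  have hqz : q / (1 - r) ≤ z / 2 := by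
    rw [hz, div_div, div_le_div_iff₀ h1r (by positivity)]
    have : 0 ≤ (1 - r) * (1 - q) ^ 2 := by positivity
    nlinarith
  have hzup : z ≤ 3.3334 * v := by
    have h1 : z ≤ 2 / (1 - r) := by
      rw [hz]; exact div_le_div_of_nonneg_right (by linarith) h1r.le
    have h2 : 2 / (1 - r) ≤ 2 / (0.6 / v) := div_le_div_of_nonneg_left (by norm_num)
      (by positivity) hr1'
    have h3 : 2 / (0.6 / v) = 10 / 3 * v := by field_simp; norm_num
    rw [h3] at h2
    norm_num
    linarith
  have hnr : n * r / (1 - r) = n * (z - 1) / 2 := by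
    rw [hz]; field_simp; ring
  have hvq : v * q / (1 - r) ≤ v * z / 2 := by
    have := mul_le_mul_of_nonneg_left hqz hv0.le
    calc v * q / (1 - r) = v * (q / (1 - r)) := by ring
      _ ≤ v * (z / 2) := this
      _ = _ := by ring
  -- the lower bounds of `z`
  have hal : 0 ≤ (n - 18) / 2 := by linarith
  have hE2 := e2 n v L hn hv0 hv hL
  have hmain : 1.42 ≤ z ∧ 0 ≤ (n - 18) / 2 * Real.log z -
      0.61686 * (L / Real.log 2 + 1) * z - (4.5651 * v + 3 * L + 3.39) := by
    rcases hcase with ⟨hc1, hc2⟩ | ⟨hc1, hc2⟩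
    · have hc1' : n ≤ 1299 := by
        have : N ≤ 1299 := by omega
        rw [hndef]
        exact_mod_cast this
      have h1 : n + 600 ≤ (n + v) * z := by
        rw [hnr] at hc2
        linarith
      have h2 : (n + 600) / (n + v) ≤ z := by
        rw [div_le_iff₀ (by positivity)]; linarith
      refine ⟨?_, conc _ _ _ _ _ _ hal (by positivity) h2 hzup
        (e1 n v L hn (by linarith) hv0 hv hL) hE2⟩
      refine le_trans ?_ h2
      rw [le_div_iff₀ (by positivity)]
      have : v ≤ 36.05 := by nlinarith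
      norm_num at this ⊢
      linarith
    · have hc1' : 1300 ≤ n := by
        rw [hndef]
        exact_mod_cast hc1
      have h1 : 1.5 * n - 2 ≤ (n + v) * z := by
        rw [hnr] at hc2
        norm_num at hc2 ⊢
        linarith
      have hv36 : 36.05 ≤ v := by nlinarith
      have h2 : 1.457 ≤ z := by
        by_contra hcon
        push Not at hcon
        have h3 : (n + v) * z ≤ (n + v) * 1.457 := mul_le_mul_of_nonneg_left hcon.le (by positivity)
        norm_num at h1 h3 hv36
        nlinarith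
      refine ⟨by norm_num at h2 ⊢; linarith, conc _ _ _ _ _ _ hal (by norm_num) h2 hzup
        (e1' n v L hc1' hv hL) hE2⟩
  obtain ⟨hz142, hfin⟩ := hmain
  -- `r` is not small
  have hr17 : 0.1735 ≤ r := by
    have : 1.42 * (1 - r) ≤ z * (1 - r) := mul_le_mul_of_nonneg_right hz142 h1r.le
    rw [hzr] at this
    norm_num at this ⊢
    linarith
  have hs175 : s ≤ 1.752 := by
    rw [hs, one_div, Real.log_inv]
    have h1 := Real.log_le_log (by norm_num) hr17
    have h2 := lg_up (0.1735)⁻¹ 1 0.752 1.752 (by norm_num) (by norm_num) (by norm_num)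
      (by norm_num)
    rw [Real.log_inv] at h2
    linarith
  -- `s ≥ 2 / z`
  have hsz : 2 / z ≤ s := by
    have h1 := Real.le_log_one_add_of_nonneg (x := (1 - r) / r) (by positivity)
    have h2 : 1 + (1 - r) / r = 1 / r := by field_simp; ring
    have h3 : 2 * ((1 - r) / r) / ((1 - r) / r + 2) = 2 / z := by
      rw [hz]; field_simp; ring
    rw [h2, h3] at h1
    exact h1
  have hs0 : 0 < s := lt_of_lt_of_le (by positivity) hsz
  -- `SS`
  have hLnn : 0 ≤ L / Real.log 2 + 1 := by
    have : 0 ≤ L := Real.log_nonneg (by linarith)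
    positivity
  have hSS2 : SS N r ≤ 0.61686 * (L / Real.log 2 + 1) * z := by
    refine hSS.trans ?_
    have h1 : Real.pi ^ 2 / (8 * s) ≤ 0.61686 * z := by
      rw [div_le_iff₀ (by positivity)]
      have h2 : 2 ≤ z * s := by
        rw [div_le_iff₀ hz0] at hsz; linarith
      have h3 : Real.pi ^ 2 ≤ 9.8697 := by
        have h4 := Real.pi_lt_d6
        have h5 := Real.pi_pos
        norm_num at h4 ⊢
        nlinarith
      norm_num at h3 ⊢
      nlinarith
    calc (L / Real.log 2 + 1) * Real.pi ^ 2 / (8 * s)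
        = (L / Real.log 2 + 1) * (Real.pi ^ 2 / (8 * s)) := by ring
      _ ≤ (L / Real.log 2 + 1) * (0.61686 * z) := mul_le_mul_of_nonneg_left h1 hLnn
      _ = _ := by ring
  -- `2 B1 s`
  have hBs : 2 * (v * q / (1 - r) + 1) * s ≤ 2 * v + 2 * s := by
    have h1 := two_log (q⁻¹) (by rw [one_le_inv₀ hq0]; exact hq1.le)
    have h2 : s = 2 * Real.log q⁻¹ := by
      rw [hs, one_div, Real.log_inv, Real.log_inv, ← hq2, Real.log_pow]; norm_num
    have h3 : s ≤ (1 - r) / q := by
      rw [h2]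
      refine h1.trans (le_of_eq ?_)
      rw [inv_inv, ← hq2]; field_simp
    have h4 : q / (1 - r) * s ≤ 1 := by
      calc q / (1 - r) * s ≤ q / (1 - r) * ((1 - r) / q) :=
            mul_le_mul_of_nonneg_left h3 (by positivity)
        _ = 1 := by field_simp
    have h5 : v * (q / (1 - r) * s) ≤ v * 1 := mul_le_mul_of_nonneg_left h4 hv0.le
    have h6 : 2 * (v * q / (1 - r) + 1) * s = 2 * (v * (q / (1 - r) * s)) + 2 * s := by ring
    rw [h6]; linarith
  -- `2 log B1`
  have hB : 2 * Real.log (v * q / (1 - r) + 1) ≤ L + 2 * Real.log z - 1.214 := by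
    have h1 : v * q / (1 - r) + 1 ≤ 0.5447 * (v * z) := by
      have h2 : 22.4 ≤ v * z := by
        have := mul_le_mul hv15.le hz142 (by norm_num) hv0.le
        norm_num at this ⊢
        linarith
      norm_num at h2 ⊢
      linarith
    have h3 := Real.log_le_log (by positivity) h1
    rw [Real.log_mul (by norm_num) (by positivity), Real.log_mul hv0.ne' hz0.ne'] at h3
    have h4 : L = 2 * Real.log v := by rw [hL, ← hv, Real.log_pow]; norm_num
    have h5 : Real.log 0.5447 ≤ -0.607 := by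
      have := lg_lo (0.5447)⁻¹ 0 0.607 0.607 (by norm_num) (by norm_num) (by norm_num)
        (by norm_num) (by norm_num)
      rw [Real.log_inv] at this
      linarith
    norm_num at h3 h5 ⊢
    linarith
  have h6l : Real.log (1 / (1 - r)) ≤ Real.log z := by
    refine Real.log_le_log (by positivity) ?_
    rw [hz]; exact div_le_div_of_nonneg_right (by linarith) h1r.le
  have h3n : Real.log (3 * n ^ 2) ≤ 1.0987 + 2 * L := by
    rw [Real.log_mul (by norm_num) (by positivity), Real.log_pow]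
    have h1 := lg_up 3 1 0.0987 1.0987 (by norm_num) (by norm_num) (by norm_num) (by norm_num)
    push_cast
    linarith
  norm_num at hs175 hB h3n hfin hSS2 h6l ⊢
  linarith

end Pool.Agent.H37.UM
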