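import Pool.Agent.H37.UM.Stmts

/-!
# Project UM (MP_a56223_co): module IVU (uses REC and MAJ)
-/

set_option autoImplicit false

namespace Pool.Agent.H37.UM.IVU

open PowerSeries Finset

/-! ### Partitions -/

/-- the partition with given parts -/
def mkp (n : ℕ) (s : Multiset ℕ) (h : ∀ i ∈ s, 0 < i) (hs : s.sum = n) : n.Partition :=
  ⟨s, fun {i} hi => h i hi, hs⟩

theorem seven (m : ℕ) : 7 ≤ Fintype.card (Nat.Partition (m + 5)) := by
  classical
  let f : (m + 5).Partition → ℕ × ℕ := fun p => (p.parts.card, min (p.parts.count 1) 4)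
  have h : ({(1, 0), (2, 1), (2, 0), (3, 2), (3, 1), (4, 3), (5, 4)} : Finset (ℕ × ℕ)) ⊆
      Finset.univ.image f := by
    intro x hx
    simp only [Finset.mem_insert, Finset.mem_singleton] at hx
    rw [Finset.mem_image]
    rcases hx with rfl | rfl | rfl | rfl | rfl | rfl | rfl
    · refine ⟨mkp _ {m + 5} (by simp) (by simp), Finset.mem_univ _, ?_⟩
      simp [f, mkp]
    · refine ⟨mkp _ {m + 4, 1} (by simp) (by simp), Finset.mem_univ _, ?_⟩
      have : (1 : ℕ) ≠ m + 4 := by omega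
      simp [f, mkp, Multiset.count_cons]
    · refine ⟨mkp _ {m + 3, 2} (by simp) (by simp), Finset.mem_univ _, ?_⟩
      simp [f, mkp, Multiset.count_cons, Multiset.count_singleton]
    · refine ⟨mkp _ {m + 3, 1, 1} (by simp) (by simp), Finset.mem_univ _, ?_⟩
      simp [f, mkp, Multiset.count_cons]
    · refine ⟨mkp _ {m + 2, 2, 1} (by simp) (by simp), Finset.mem_univ _, ?_⟩
      simp [f, mkp, Multiset.count_cons]
    · refine ⟨mkp _ {m + 2, 1, 1, 1} (by simp) (by simp), Finset.mem_univ _, ?_⟩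
      simp [f, mkp, Multiset.count_cons]
    · refine ⟨mkp _ {m + 1, 1, 1, 1, 1} (by simp) (by simp), Finset.mem_univ _, ?_⟩
      simp [f, mkp, Multiset.count_cons]
  have h1 := Finset.card_le_card h
  have h2 : (Finset.univ.image f).card ≤ Fintype.card (Nat.Partition (m + 5)) := by
    rw [← Finset.card_univ]; exact Finset.card_image_le
  have h3 : ({(1, 0), (2, 1), (2, 0), (3, 2), (3, 1), (4, 3), (5, 4)} : Finset (ℕ × ℕ)).card = 7 := by
    decide
  omega

theorem sk_ge (m : ℕ) : ∀ n, 7 * (n + m).choose m ≤ sk m (n + 5) := by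
  induction m with
  | zero => intro n; simpa [sk] using seven n
  | succ m ih =>
    intro n
    have h1 : sk (m + 1) (n + 5) = ∑ j ∈ range (n + 5 + 1), sk m j := rfl
    rw [h1]
    have h2 : ∑ j ∈ range (n + 1), sk m (j + 5) ≤ ∑ j ∈ range (n + 5 + 1), sk m j := by
      have h3 : n + 5 + 1 = 5 + (n + 1) := by ring
      rw [h3, Finset.sum_range_add (fun j => sk m j) 5 (n + 1)]
      have h4 : ∑ x ∈ range (n + 1), sk m (5 + x) = ∑ j ∈ range (n + 1), sk m (j + 5) :=
        Finset.sum_congr rfl fun j _ => by rw [add_comm]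
      rw [h4]
      exact Nat.le_add_left _ _
    refine le_trans ?_ h2
    have h5 : ∑ j ∈ range (n + 1), (j + m).choose m = (n + (m + 1)).choose (m + 1) := by
      rw [← add_assoc]
      exact Nat.sum_range_add_choose n m
    rw [← h5, Finset.mul_sum]
    exact Finset.sum_le_sum fun j _ => ih j

/-! ### Binomial coefficients -/

/-- `C (a + k - j, a) ≤ C (a + k, a) (k / a) ^ j` -/
theorem choose_dec (a k : ℕ) (ha : 0 < a) :
    ∀ j ≤ k, (((a + (k - j)).choose a : ℕ) : ℝ) ≤ ((a + k).choose a : ℕ) * ((k : ℝ) / a) ^ j := by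
  intro j
  induction j with
  | zero => intro _; simp
  | succ j ih =>
    intro hj
    have h1 := ih (by omega)
    obtain ⟨i, hi⟩ : ∃ i, k - j = i + 1 := ⟨k - j - 1, by omega⟩
    have h2 : k - (j + 1) = i := by omega
    rw [h2]
    rw [hi] at h1
    have ha' : (0 : ℝ) < a := by exact_mod_cast ha
    -- `(a + i + 1) C(a + i, a) = (i + 1) C(a + i + 1, a)`
    have h3 := Nat.add_one_mul_choose_eq (a + i) i
    rw [← Nat.choose_symm_add, show a + i + 1 = a + (i + 1) by ring, ← Nat.choose_symm_add] at h3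
    have h4 : ((a : ℝ) + (i + 1)) * ((a + i).choose a : ℕ) =
        ((a + (i + 1)).choose a : ℕ) * ((i : ℝ) + 1) := by exact_mod_cast h3
    have hik : (i : ℝ) + 1 ≤ k := by
      have : i + 1 ≤ k := by omega
      exact_mod_cast this
    have h5 : (a : ℝ) * ((a + i).choose a : ℕ) ≤ ((a + (i + 1)).choose a : ℕ) * k := by
      have h6 : (0 : ℝ) ≤ ((a + i).choose a : ℕ) := by positivity
      have h7 : (0 : ℝ) ≤ ((a + (i + 1)).choose a : ℕ) := by positivity
      have h8 : (a : ℝ) * ((a + i).choose a : ℕ) ≤ ((a : ℝ) + (i + 1)) * ((a + i).choose a : ℕ) :=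
        mul_le_mul_of_nonneg_right (by linarith [(Nat.cast_nonneg i : (0 : ℝ) ≤ i)]) h6
      have h9 := mul_le_mul_of_nonneg_left hik h7
      linarith
    have h6 : (((a + i).choose a : ℕ) : ℝ) ≤ ((a + (i + 1)).choose a : ℕ) * ((k : ℝ) / a) := by
      rw [← mul_div_assoc, le_div_iff₀ ha']
      linarith
    calc (((a + i).choose a : ℕ) : ℝ) ≤ ((a + (i + 1)).choose a : ℕ) * ((k : ℝ) / a) := h6
      _ ≤ (((a + k).choose a : ℕ) * ((k : ℝ) / a) ^ j) * ((k : ℝ) / a) :=
          mul_le_mul_of_nonneg_right h1 (by positivity)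
      _ = _ := by ring

/-- `C (m + t + k, k) ≤ y ^ t C (m + k, k)` -/
theorem choose_inc (m k : ℕ) (y : ℝ) (hy : 1 + (k : ℝ) / (m + 1) ≤ y) :
    ∀ t : ℕ, (((m + t + k).choose k : ℕ) : ℝ) ≤ y ^ t * ((m + k).choose k : ℕ) := by
  have hy0 : 0 ≤ y := le_trans (by positivity) hy
  intro t
  induction t with
  | zero => simp
  | succ t ih =>
    have h1 := Nat.choose_mul_succ_eq (m + t + k) k
    have h2 : m + t + k + 1 - k = m + t + 1 := by omega
    rw [h2, show m + t + k + 1 = m + (t + 1) + k by ring] at h1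
    have h3 : (((m + t + k).choose k : ℕ) : ℝ) * ((m : ℝ) + t + k + 1) =
        ((m + (t + 1) + k).choose k : ℕ) * ((m : ℝ) + t + 1) := by
      have : (((m + t + k).choose k : ℕ) : ℝ) * ((m + (t + 1) + k : ℕ) : ℝ) =
        ((m + (t + 1) + k).choose k : ℕ) * ((m + t + 1 : ℕ) : ℝ) := by exact_mod_cast h1
      push_cast at this
      linarith
    have h4 : (m : ℝ) + t + k + 1 ≤ y * ((m : ℝ) + t + 1) := by
      have h5 : ((m : ℝ) + 1) + k ≤ y * ((m : ℝ) + 1) := by
        have : 0 < (m : ℝ) + 1 := by positivity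
        have h6 := mul_le_mul_of_nonneg_right hy this.le
        have h7 : (1 + (k : ℝ) / (m + 1)) * ((m : ℝ) + 1) = (m : ℝ) + 1 + k := by field_simp
        linarith
      have h8 : 1 ≤ y := by
        have : 0 ≤ (k : ℝ) / (m + 1) := by positivity
        linarith
      have h9 : (t : ℝ) ≤ y * t := by
        have : (0 : ℝ) ≤ t := by positivity
        nlinarith
      linarith
    have h5 : (0 : ℝ) < (m : ℝ) + t + 1 := by positivity
    have h6 : (((m + (t + 1) + k).choose k : ℕ) : ℝ) ≤ y * ((m + t + k).choose k : ℕ) := by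
      have h7 : (0 : ℝ) ≤ ((m + t + k).choose k : ℕ) := by positivity
      have h8 := mul_le_mul_of_nonneg_left h4 h7
      rw [h3] at h8
      have h9 : (((m + (t + 1) + k).choose k : ℕ) : ℝ) * ((m : ℝ) + t + 1) ≤
          (y * ((m + t + k).choose k : ℕ)) * ((m : ℝ) + t + 1) := by linarith
      exact le_of_mul_le_mul_right h9 h5
    calc _ ≤ y * ((m + t + k).choose k : ℕ) := h6
      _ ≤ y * (y ^ t * ((m + k).choose k : ℕ)) := mul_le_mul_of_nonneg_left ih hy0
      _ = _ := by ring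

/-! ### Power series -/

theorem w_one : w 1 = 1 - X := by simp [w, sub_eq_add_neg]

theorem w1g1 : w 1 * g 1 = 1 := by
  unfold g
  refine PowerSeries.mul_invOfUnit _ _ ?_
  simp [w]

theorem g_one : g 1 = (PowerSeries.mk 1 : ℤ⟦X⟧) := by
  have h1 := PowerSeries.mk_one_mul_one_sub_eq_one ℤ
  rw [← w_one] at h1
  calc g 1 = g 1 * ((PowerSeries.mk 1 : ℤ⟦X⟧) * w 1) := by rw [h1, mul_one]
    _ = (PowerSeries.mk 1 : ℤ⟦X⟧) * (w 1 * g 1) := by ring
    _ = _ := by rw [w1g1, mul_one]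

theorem coeff_g_pow (a j : ℕ) : coeff j (g 1 ^ (a + 1)) = ((a + j).choose a : ℤ) := by
  rw [g_one, PowerSeries.mk_one_pow_eq_mk_choose_add, PowerSeries.coeff_mk]

theorem maj_one (r : ℝ) : Maj r 1 1 := by
  intro K
  cases K with
  | zero => simp
  | succ K =>
    rw [Finset.sum_range_succ']
    simp [PowerSeries.coeff_one]

theorem maj_pow (hM : MAJStmt) (r : ℝ) (hr : 0 < r) (i c : ℕ) : Maj r (w i ^ c) ((1 + r ^ i) ^ c) := by
  induction c with
  | zero => simpa using maj_one r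
  | succ c ih =>
    rw [pow_succ, pow_succ]
    exact hM.1 r _ _ _ _ hr ih (hM.2.2.1 r i hr)

theorem maj_prod (hM : MAJStmt) (r : ℝ) (hr : 0 < r) (c : ℕ → ℕ) (s : Finset ℕ) :
    Maj r (∏ i ∈ s, w i ^ c i) (∏ i ∈ s, (1 + r ^ i) ^ c i) := by
  classical
  induction s using Finset.induction_on with
  | empty => simpa using maj_one r
  | insert a s ha ih =>
    rw [Finset.prod_insert ha, Finset.prod_insert ha]
    exact hM.1 r _ _ _ _ hr (maj_pow hM r hr a (c a)) ih

theorem cc_one (n : ℕ) (hn : 1 ≤ n) : cc n 1 = Nat.log 2 n + 1 := by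
  unfold cc
  rw [if_neg (by omega)]
  simp

theorem cc_le (n i : ℕ) (hn : 2 ≤ n) (hi : 2 ≤ i) : cc n i ≤ Nat.log 2 n := by
  unfold cc
  split_ifs with h
  · exact Nat.zero_le _
  · have h1 : Nat.log 2 (n / i) ≤ Nat.log 2 (n / 2) :=
      Nat.log_mono_right (Nat.div_le_div_left hi (by norm_num))
    rw [Nat.log_div_base] at h1
    have h2 : 1 ≤ Nat.log 2 n := Nat.log_pos (by norm_num) hn
    omega

theorem den_eq (n : ℕ) (hn : 1 ≤ n) :
    den n = w 1 ^ (Nat.log 2 n + 1) * ∏ i ∈ Icc 2 n, w i ^ cc n i := by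
  unfold den
  have h1 : Icc 1 n = insert 1 (Icc 2 n) := by
    ext x; simp only [Finset.mem_Icc, Finset.mem_insert]; omega
  rw [h1, Finset.prod_insert (by simp), cc_one n hn]

theorem one_sub_T (hR : RECStmt) (n a : ℕ) (hn : 1 ≤ n) (ha : n = a + (Nat.log 2 n + 3)) :
    (1 - X) * T n = (∏ i ∈ Icc 2 n, w i ^ cc n i) * g 1 ^ (a + 1) := by
  rw [hR.2.1 n, den_eq n hn, ← w_one]
  set G := ∏ i ∈ Icc 2 n, w i ^ cc n i
  have h1 : g 1 ^ n = g 1 ^ (a + 1) * g 1 ^ (Nat.log 2 n + 2) := by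
    rw [← pow_add]; congr 1; omega
  have h2 : w 1 ^ (Nat.log 2 n + 2) * g 1 ^ (Nat.log 2 n + 2) = 1 := by
    rw [← mul_pow, w1g1, one_pow]
  rw [h1]
  calc w 1 * (w 1 ^ (Nat.log 2 n + 1) * G * (g 1 ^ (a + 1) * g 1 ^ (Nat.log 2 n + 2)))
      = G * g 1 ^ (a + 1) * (w 1 ^ (Nat.log 2 n + 2) * g 1 ^ (Nat.log 2 n + 2)) := by ring
    _ = _ := by rw [h2, mul_one]

theorem prod_le_exp (n : ℕ) (x : ℝ) (hn : 2 ≤ n) (hx0 : 0 < x) (hx1 : x < 1) :
    ∏ i ∈ Icc 2 n, (1 + x ^ i) ^ cc n i ≤ Real.exp (Nat.log 2 n * (x ^ 2 / (1 - x))) := by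
  have h1 : ∏ i ∈ Icc 2 n, (1 + x ^ i) ^ cc n i ≤ ∏ i ∈ Icc 2 n, Real.exp (Nat.log 2 n * x ^ i) := by
    refine Finset.prod_le_prod (fun i _ => by positivity) fun i hi => ?_
    rw [Finset.mem_Icc] at hi
    have h2 : 1 + x ^ i ≤ Real.exp (x ^ i) := by
      have := Real.add_one_le_exp (x ^ i); linarith
    calc (1 + x ^ i) ^ cc n i ≤ (1 + x ^ i) ^ Nat.log 2 n :=
          pow_le_pow_right₀ (by have : 0 < x ^ i := by positivity
                                linarith) (cc_le n i hn hi.1)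
      _ ≤ (Real.exp (x ^ i)) ^ Nat.log 2 n := pow_le_pow_left₀ (by positivity) h2 _
      _ = _ := by rw [← Real.exp_nat_mul]
  refine h1.trans ?_
  rw [← Real.exp_sum, ← Finset.mul_sum]
  refine Real.exp_le_exp.2 (mul_le_mul_of_nonneg_left ?_ (by positivity))
  have h2 : Icc 2 n = Ico 2 (n + 1) := by ext y; simp only [Finset.mem_Icc, Finset.mem_Ico]; omega
  rw [h2]
  exact geom_sum_Ico_le_of_lt_one hx0.le hx1

theorem log_small (n : ℕ) (hn : 1300 ≤ n) : 100 * Nat.log 2 n ≤ n := by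
  rcases lt_or_ge (Nat.log 2 n) 10 with h | h
  · omega
  · have h1 : 2 ^ Nat.log 2 n ≤ n := Nat.pow_log_le_self 2 (by omega)
    have h2 : ∀ l, 10 ≤ l → 100 * l ≤ 2 ^ l := by
      intro l hl
      induction l, hl using Nat.le_induction with
      | base => norm_num
      | succ l hl ih => rw [pow_succ]; omega
    exact (h2 _ h).trans h1

end Pool.Agent.H37.UM.IVU

namespace Pool.Agent.H37.UM

open PowerSeries Finset IVU

theorem IVU_thm (hR : RECStmt) (hM : MAJStmt) : IVUStmt := by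
  intro n k hn hk hc
  have hlog := log_small n hn
  set l := Nat.log 2 n with hl
  obtain ⟨a, ha⟩ : ∃ a, n = a + (l + 3) := ⟨n - (l + 3), by omega⟩
  have ha' : n - (l + 3) = a := by omega
  rw [ha']
  have hn' : (1300 : ℝ) ≤ n := by exact_mod_cast hn
  have hl' : 100 * (l : ℝ) ≤ n := by exact_mod_cast hlog
  have haR : (n : ℝ) = a + (l + 3) := by exact_mod_cast ha
  have hl0 : (0 : ℝ) ≤ l := by positivity
  have ha0 : (0 : ℝ) < a := by linarith
  have hk1 : (1 : ℝ) ≤ k := by exact_mod_cast hk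
  -- `k ^ 2 ≤ 3.77 n`
  have hk2 : 100 * (k : ℝ) ^ 2 ≤ 377 * n := by
    rcases hc with h | h
    · have : (k : ℝ) ≤ 70 := by exact_mod_cast h
      nlinarith
    · have : 25 * (k : ℝ) ^ 2 ≤ 81 * n := by exact_mod_cast h
      linarith
  have hk3 : (k : ℝ) ≤ 0.055 * (a - 4) := by
    rcases hc with h | h
    · have : (k : ℝ) ≤ 70 := by exact_mod_cast h
      norm_num
      linarith
    · have h1 : 25 * (k : ℝ) ^ 2 ≤ 81 * n := by exact_mod_cast h
      have h2 : 0.99 * (n : ℝ) - 7 ≤ a - 4 := by norm_num; linarith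
      norm_num at h2 ⊢
      by_contra hcon
      push Not at hcon
      have h3 : 11 / 200 * (99 / 100 * (n : ℝ) - 7) < k := by linarith
      have h4 : 0 < 11 / 200 * (99 / 100 * (n : ℝ) - 7) := by linarith
      have h5 : (11 / 200 * (99 / 100 * (n : ℝ) - 7)) ^ 2 < (k : ℝ) ^ 2 :=
        pow_lt_pow_left₀ h3 h4.le (by norm_num)
      nlinarith
  set x : ℝ := (k : ℝ) / a with hx
  have hx0 : 0 < x := by positivity
  have hx1 : x ≤ 0.055 := by
    rw [hx, div_le_iff₀ ha0]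
    norm_num at hk3 ⊢
    linarith
  have hlx : (l : ℝ) * (x ^ 2 / (1 - x)) ≤ 0.041 := by
    have h1 : (l : ℝ) * x ^ 2 ≤ 0.0387 := by
      have h2 : (l : ℝ) * x ^ 2 = l * k ^ 2 / a ^ 2 := by rw [hx]; ring
      rw [h2, div_le_iff₀ (by positivity)]
      have h3 : 100 * (l * (k : ℝ) ^ 2) ≤ l * (377 * n) := by nlinarith
      have h4 : (l : ℝ) * (377 * n) ≤ 3.77 * n ^ 2 := by norm_num; nlinarith
      have h5 : 0.9876 * (n : ℝ) ≤ a := by norm_num; linarith
      have h6 : (0.9876 * (n : ℝ)) ^ 2 ≤ (a : ℝ) ^ 2 := pow_le_pow_left₀ (by positivity) h5 2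
      norm_num at h4 h6 ⊢
      nlinarith
    have h2 : (l : ℝ) * (x ^ 2 / (1 - x)) = (l * x ^ 2) / (1 - x) := by ring
    rw [h2, div_le_iff₀ (by norm_num at hx1 ⊢; linarith)]
    norm_num at h1 hx1 ⊢
    linarith
  set G : ℤ⟦X⟧ := ∏ i ∈ Icc 2 n, w i ^ cc n i with hG
  have hA : ∏ i ∈ Icc 2 n, (1 + x ^ i) ^ cc n i ≤ 1.043 := by
    have h1 := prod_le_exp n x (by omega) hx0 (by norm_num at hx1; linarith)
    have h2 := Real.exp_le_exp.2 hlx
    have h3 := Real.exp_bound_div_one_sub_of_interval (x := 0.041) (by norm_num) (by norm_num)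
    refine h1.trans (h2.trans (h3.trans ?_))
    norm_num
  have hMaj := maj_prod hM x hx0 (fun i => cc n i) (Icc 2 n) (k + 1)
  -- the estimate of `df`
  have hdf : |((df (T n) k : ℤ) : ℝ)| ≤ 1.043 * ((a + k).choose a : ℕ) := by
    have h1 : df (T n) k = ∑ j ∈ range (k + 1), coeff j G * ((a + (k - j)).choose a : ℤ) := by
      unfold df
      rw [one_sub_T hR n a (by omega) ha, PowerSeries.coeff_mul,
        Finset.Nat.sum_antidiagonal_eq_sum_range_succ_mk]
      exact Finset.sum_congr rfl fun j _ => by rw [coeff_g_pow]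
    rw [h1]
    push_cast
    refine (Finset.abs_sum_le_sum_abs _ _).trans ?_
    have h2 : ∀ j ∈ range (k + 1), |((coeff j G : ℤ) : ℝ) * (((a + (k - j)).choose a : ℕ) : ℝ)| ≤
        ((a + k).choose a : ℕ) * (|((coeff j G : ℤ) : ℝ)| * x ^ j) := by
      intro j hj
      rw [Finset.mem_range] at hj
      rw [abs_mul, Nat.abs_cast]
      have h3 := choose_dec a k (by exact_mod_cast ha0) j (by omega)
      calc |((coeff j G : ℤ) : ℝ)| * (((a + (k - j)).choose a : ℕ) : ℝ)
          ≤ |((coeff j G : ℤ) : ℝ)| * (((a + k).choose a : ℕ) * x ^ j) :=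
            mul_le_mul_of_nonneg_left h3 (abs_nonneg _)
        _ = _ := by ring
    refine (Finset.sum_le_sum h2).trans ?_
    rw [← Finset.mul_sum, mul_comm]
    refine mul_le_mul_of_nonneg_right (hMaj.trans hA) (by positivity)
  -- the lower bound of `sk`
  obtain ⟨m, hm⟩ : ∃ m, a = m + 5 := ⟨a - 5, by
    have : (5 : ℝ) ≤ a := by linarith
    have : 5 ≤ a := by exact_mod_cast this
    omega⟩
  have hmR : (a : ℝ) = m + 5 := by exact_mod_cast hm
  have h1 := sk_ge k m
  rw [← hm] at h1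
  have h2 := choose_inc m k 1.055 (by
    have h3 : (k : ℝ) / (m + 1) ≤ 0.055 := by
      rw [div_le_iff₀ (by positivity)]
      norm_num at hk3 ⊢
      linarith
    norm_num at h3 ⊢
    linarith) 5
  rw [← hm, ← Nat.choose_symm_add] at h2
  have h3 : (7 : ℝ) * ((m + k).choose k : ℕ) ≤ (sk k a : ℕ) := by exact_mod_cast h1
  have h4 : (4 : ℝ) * |((df (T n) k : ℤ) : ℝ)| ≤ ((sk k a : ℕ) : ℝ) := by
    have h5 : (0 : ℝ) ≤ ((m + k).choose k : ℕ) := by positivity
    norm_num at hdf h2 ⊢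
    linarith
  have h5 : ((4 * |df (T n) k| : ℤ) : ℝ) ≤ ((sk k a : ℤ) : ℝ) := by
    push_cast
    exact h4
  exact_mod_cast h5

end Pool.Agent.H37.UM
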